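import Mathlib
import Pool.Agent.Y670.RD.Rid
import Pool.Agent.K1H94.P.Final

/-!
One given base, a second base with a large `S`-part, a fixed exponent `k` of the third base
(Ridout's theorem for the form `V (c ^ k - A V ^ k)`).
-/

set_option autoImplicit false

namespace Pool.Agent.K1H94.R

open Polynomial
open Pool.Agent.K1H94.P (sPart)
open Pool.Agent.Y670.RD (fv fvq rid_form')

/-- the polynomial `X - A X ^ (k + 1)` -/
noncomputable def gp (A : ℤ) (k : ℕ) : ℤ[X] := X - C A * X ^ (k + 1)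

theorem gp_deg {A : ℤ} (hA : A ≠ 0) {k : ℕ} (hk : 1 ≤ k) : (gp A k).natDegree = k + 1 := by
  have h1 : (C A * X ^ (k + 1) : ℤ[X]).natDegree = k + 1 := natDegree_C_mul_X_pow _ _ hA
  rw [gp, natDegree_sub_eq_right_of_natDegree_lt, h1]
  rw [h1, natDegree_X]
  omega

theorem gp_sqf {A : ℤ} (hA : A ≠ 0) {k : ℕ} (hk : 1 ≤ k) :
    Squarefree ((gp A k).map (Int.castRingHom ℚ)) := by
  have hAQ : (A : ℚ) ≠ 0 := by exact_mod_cast hA
  have h1 : (gp A k).map (Int.castRingHom ℚ) =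
      C (-(A : ℚ)) * (X * (X ^ k - C ((A : ℚ)⁻¹))) := by
    rw [gp, Polynomial.map_sub, Polynomial.map_mul, Polynomial.map_pow, map_X, map_C]
    have : (C (-(A : ℚ)) : ℚ[X]) * (X * (X ^ k - C ((A : ℚ)⁻¹))) =
        (C (A : ℚ) * C ((A : ℚ)⁻¹)) * X - C (A : ℚ) * X ^ (k + 1) := by
      rw [C_neg]
      ring
    rw [this, ← C_mul, mul_inv_cancel₀ hAQ, C_1, one_mul]
    simp
  have hu : IsUnit (C (-(A : ℚ)) : ℚ[X]) := isUnit_C.2 (neg_ne_zero.2 hAQ).isUnit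
  have hsep : (X ^ k - C ((A : ℚ)⁻¹)).Separable :=
    separable_X_pow_sub_C _ (by exact_mod_cast (by omega : k ≠ 0)) (inv_ne_zero hAQ)
  have hcop : IsCoprime (X : ℚ[X]) (X ^ k - C ((A : ℚ)⁻¹)) := by
    refine ⟨C (A : ℚ) * X ^ (k - 1), -C (A : ℚ), ?_⟩
    have h2 : (C (A : ℚ) * X ^ (k - 1) * X : ℚ[X]) = C (A : ℚ) * X ^ k := by
      rw [mul_assoc, ← pow_succ, Nat.sub_add_cancel hk]
    rw [h2]
    have h3 : (C (A : ℚ) * X ^ k + -C (A : ℚ) * (X ^ k - C ((A : ℚ)⁻¹)) : ℚ[X]) =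
        C (A : ℚ) * C ((A : ℚ)⁻¹) := by ring
    rw [h3, ← C_mul, mul_inv_cancel₀ hAQ, C_1]
  have h4 : (X * (X ^ k - C ((A : ℚ)⁻¹)) : ℚ[X]).Separable := separable_X.mul hsep hcop
  rw [h1]
  exact (h4.unit_mul hu).squarefree

theorem gp_val {A : ℤ} {k : ℕ} (hA : A ≠ 0) (hk : 1 ≤ k) {V c : ℤ} (hc : c ≠ 0) :
    fv (gp A k).natDegree (gp A k) V c = V * (c ^ k - A * V ^ k) := by
  have h1 := fvq (le_refl (gp A k).natDegree) (s := V) hc
  have hcQ : (c : ℚ) ≠ 0 := by exact_mod_cast hc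
  rw [gp_deg hA hk] at h1 ⊢
  have h2 : (aeval ((V : ℚ) / c) (gp A k) : ℚ) = (V : ℚ) / c - A * ((V : ℚ) / c) ^ (k + 1) := by
    rw [gp]
    simp
  rw [h2] at h1
  have h3 : ((fv (k + 1) (gp A k) V c : ℤ) : ℚ) = ((V * (c ^ k - A * V ^ k) : ℤ) : ℚ) := by
    rw [h1]
    push_cast
    rw [div_pow, mul_sub, pow_succ (c : ℚ) k, pow_succ (V : ℚ) k]
    field_simp
  exact_mod_cast h3

theorem norm_prod {T : Finset ℕ} (hT : ∀ p ∈ T, p.Prime) {n : ℕ} (hn : n ≠ 0) :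
    ∏ p ∈ T, (padicNorm p (n : ℚ) : ℝ) = ((sPart T n : ℕ) : ℝ)⁻¹ := by
  rw [sPart, Nat.cast_prod, ← Finset.prod_inv_distrib]
  refine Finset.prod_congr rfl fun p hp => ?_
  have : Fact p.Prime := ⟨hT p hp⟩
  rw [padicNorm.eq_zpow_of_nonzero (by exact_mod_cast hn), padicValRat.of_nat,
    ← Nat.factorization_def n (hT p hp), zpow_neg, zpow_natCast]
  push_cast
  rfl

theorem sPart_pos {T : Finset ℕ} (hT : ∀ p ∈ T, p.Prime) (n : ℕ) : 0 < sPart T n :=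
  Finset.prod_pos fun p hp => pow_pos (hT p hp).pos _

theorem sPart_mono {S T : Finset ℕ} (hT : ∀ p ∈ T, p.Prime) (h : S ⊆ T) (n : ℕ) :
    sPart S n ≤ sPart T n :=
  Finset.prod_le_prod_of_subset_of_one_le' h fun p hp _ => Nat.one_le_pow _ _ (hT p hp).pos

theorem sPart_full {T : Finset ℕ} {n : ℕ} (hn : n ≠ 0) (h : n.primeFactors ⊆ T) :
    sPart T n = n := by
  have h1 : ∏ p ∈ n.primeFactors, p ^ n.factorization p = n :=
    Nat.prod_factorization_pow_eq_self hn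
  conv_rhs => rw [← h1]
  rw [sPart]
  symm
  refine Finset.prod_subset h fun p _ hp => ?_
  rw [← Nat.support_factorization, Finsupp.notMem_support_iff] at hp
  rw [hp, pow_zero]

/-- the heights of the solutions are bounded -/
theorem fixed_bound {κ : ℝ} (hκ0 : 0 < κ) (hκ1 : κ ≤ 1) {k a : ℕ} (hk : 1 ≤ k) (hkκ : 1 < κ * k)
    (ha : 0 < a) {S : Finset ℕ} (hS : ∀ p ∈ S, p.Prime) {A : ℤ} (hA : A ≠ 0) :
    ∃ B : ℕ, ∀ (c x y : ℕ) (σ : ℤ), 0 < c → 0 < y → (σ = 1 ∨ σ = -1) → Nat.Coprime c (a ^ x) →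
      (y : ℝ) ^ κ ≤ (sPart S y : ℝ) →
      (c : ℤ) ^ k - A * ((a ^ x : ℕ) : ℤ) ^ k = σ * y → c ≤ B ∧ a ^ x ≤ B := by
  classical
  set T : Finset ℕ := S ∪ a.primeFactors with hTdef
  have hT : ∀ p ∈ T, p.Prime := by
    intro p hp
    rw [hTdef, Finset.mem_union] at hp
    rcases hp with h | h
    · exact hS p h
    · exact Nat.prime_of_mem_primeFactors h
  set ε : ℝ := (κ * k - 1) / 2 with hε
  have hε0 : 0 < ε := by rw [hε]; linarith
  obtain ⟨c₀, hc₀, hrid⟩ := rid_form' (gp A k) (gp_sqf hA hk) (by rw [gp_deg hA hk]; omega) T hT ε hε0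
  set M : ℝ := 1 + |(A : ℝ)| with hM
  have hM1 : 1 ≤ M := by
    have := abs_nonneg (A : ℝ)
    linarith
  obtain ⟨B, hB⟩ := exists_nat_ge ((M / c₀) ^ (1 / ε))
  refine ⟨B, fun c x y σ hc hy hσ hcop hpart heq => ?_⟩
  set V : ℕ := a ^ x with hV
  have hV0 : 0 < V := pow_pos ha x
  have hcopZ : IsCoprime (V : ℤ) (c : ℤ) := (Nat.isCoprime_iff_coprime.2 hcop).symm
  have hval := gp_val (A := A) hA hk (V := (V : ℤ)) (c := (c : ℤ)) (by exact_mod_cast hc.ne')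
  rw [heq] at hval
  have hyR : (0 : ℝ) < y := by exact_mod_cast hy
  have hVR : (0 : ℝ) < V := by exact_mod_cast hV0
  have hne : (V : ℤ) * (σ * y) ≠ 0 := by
    have h1 : (V : ℤ) ≠ 0 := by exact_mod_cast hV0.ne'
    have h2 : (y : ℤ) ≠ 0 := by exact_mod_cast hy.ne'
    have h3 : σ ≠ 0 := by rcases hσ with rfl | rfl <;> norm_num
    exact mul_ne_zero h1 (mul_ne_zero h3 h2)
  have hmain := hrid (V : ℤ) (c : ℤ) hcopZ (by rw [hval]; exact hne)
  rw [hval] at hmain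
  set H : ℝ := max |((V : ℤ) : ℝ)| |((c : ℤ) : ℝ)| with hH
  have hHV : (V : ℝ) ≤ H := by
    refine le_trans ?_ (le_max_left _ _)
    rw [Int.cast_natCast, abs_of_pos hVR]
  have hcR : (0 : ℝ) < c := by exact_mod_cast hc
  have hHc : (c : ℝ) ≤ H := by
    refine le_trans ?_ (le_max_right _ _)
    rw [Int.cast_natCast, abs_of_pos hcR]
  have hH1 : 1 ≤ H := le_trans (by exact_mod_cast hV0) hHV
  have habs : |((((V : ℤ) * (σ * y) : ℤ)) : ℝ)| = V * y := by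
    push_cast
    rw [abs_mul, abs_mul, abs_of_pos hVR, abs_of_pos hyR]
    rcases hσ with rfl | rfl <;> simp
  have hnorm : ∏ p ∈ T, (padicNorm p (((V : ℤ) * (σ * y) : ℤ) : ℚ) : ℝ) =
      ((sPart T V : ℕ) : ℝ)⁻¹ * ((sPart T y : ℕ) : ℝ)⁻¹ := by
    rw [← norm_prod hT hV0.ne', ← norm_prod hT hy.ne', ← Finset.prod_mul_distrib]
    refine Finset.prod_congr rfl fun p hp => ?_
    have : Fact p.Prime := ⟨hT p hp⟩
    have h1 : padicNorm p (((V : ℤ) * (σ * y) : ℤ) : ℚ) = padicNorm p V * padicNorm p y := by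
      push_cast
      rw [padicNorm.mul, padicNorm.mul]
      rcases hσ with rfl | rfl
      · simp
      · simp
    rw [h1]
    push_cast
    rfl
  have hVfull : sPart T V = V := by
    refine sPart_full hV0.ne' fun p hp => ?_
    have hpp := Nat.prime_of_mem_primeFactors hp
    have hpd : p ∣ a := hpp.dvd_of_dvd_pow (Nat.dvd_of_mem_primeFactors hp)
    rw [hTdef, Finset.mem_union]
    exact Or.inr (Nat.mem_primeFactors.2 ⟨hpp, hpd, ha.ne'⟩)
  have hySR : (y : ℝ) ^ κ ≤ ((sPart T y : ℕ) : ℝ) :=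
    hpart.trans (by exact_mod_cast sPart_mono hT Finset.subset_union_left y)
  rw [habs, hnorm, hVfull, gp_deg hA hk] at hmain
  have hyκ : (0 : ℝ) < (y : ℝ) ^ κ := by positivity
  have hcalc : (V : ℝ) * y * ((V : ℝ)⁻¹ * ((sPart T y : ℕ) : ℝ)⁻¹) ≤ (y : ℝ) ^ (1 - κ) := by
    have h1 : (V : ℝ) * y * ((V : ℝ)⁻¹ * ((sPart T y : ℕ) : ℝ)⁻¹) =
        y * ((sPart T y : ℕ) : ℝ)⁻¹ := by
      field_simp
    rw [h1, Real.rpow_sub hyR, Real.rpow_one, div_eq_mul_inv]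
    exact mul_le_mul_of_nonneg_left (inv_anti₀ hyκ hySR) hyR.le
  have hyH : (y : ℝ) ≤ M * H ^ k := by
    have h1 : ((c : ℝ) ^ k - A * (V : ℝ) ^ k) = σ * y := by exact_mod_cast heq
    have h2 : |(σ : ℝ) * y| = y := by
      rw [abs_mul, abs_of_pos hyR]
      rcases hσ with rfl | rfl <;> simp
    rw [← h2, ← h1]
    calc |(c : ℝ) ^ k - A * (V : ℝ) ^ k| ≤ |(c : ℝ) ^ k| + |A * (V : ℝ) ^ k| := abs_sub _ _
      _ = (c : ℝ) ^ k + |(A : ℝ)| * (V : ℝ) ^ k := by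
        rw [abs_mul, abs_of_pos (by positivity), abs_of_pos (show (0 : ℝ) < (V : ℝ) ^ k by positivity)]
      _ ≤ H ^ k + |(A : ℝ)| * H ^ k := by
        have h3 : (c : ℝ) ^ k ≤ H ^ k := pow_le_pow_left₀ hcR.le hHc k
        have h4 : (V : ℝ) ^ k ≤ H ^ k := pow_le_pow_left₀ hVR.le hHV k
        have h5 := mul_le_mul_of_nonneg_left h4 (abs_nonneg (A : ℝ))
        linarith
      _ = M * H ^ k := by rw [hM]; ring
  have hH0 : 0 < H := by linarith
  have hyκ2 : (y : ℝ) ^ (1 - κ) ≤ M * H ^ ((k : ℝ) * (1 - κ)) := by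
    calc (y : ℝ) ^ (1 - κ) ≤ (M * H ^ k) ^ (1 - κ) :=
          Real.rpow_le_rpow hyR.le hyH (by linarith)
      _ = M ^ (1 - κ) * H ^ ((k : ℝ) * (1 - κ)) := by
        rw [Real.mul_rpow (by positivity) (by positivity), ← Real.rpow_natCast,
          ← Real.rpow_mul hH0.le]
      _ ≤ M * H ^ ((k : ℝ) * (1 - κ)) := by
        refine mul_le_mul_of_nonneg_right ?_ (by positivity)
        calc M ^ (1 - κ) ≤ M ^ (1 : ℝ) :=
              Real.rpow_le_rpow_of_exponent_le hM1 (by linarith)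
          _ = M := Real.rpow_one M
  have h7 : c₀ * H ^ (((k + 1 : ℕ) : ℝ) - 2 - ε) ≤ M * H ^ ((k : ℝ) * (1 - κ)) :=
    hmain.trans (hcalc.trans hyκ2)
  have h8 : H ^ ε ≤ M / c₀ := by
    have h9 : H ^ (((k + 1 : ℕ) : ℝ) - 2 - ε) = H ^ ((k : ℝ) * (1 - κ)) * H ^ ε := by
      rw [← Real.rpow_add hH0]
      congr 1
      push_cast
      rw [hε]
      ring
    rw [h9] at h7
    have hp : 0 < H ^ ((k : ℝ) * (1 - κ)) := Real.rpow_pos_of_pos hH0 _
    rw [le_div_iff₀ hc₀]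
    by_contra hcon
    rw [not_le] at hcon
    have := mul_lt_mul_of_pos_right hcon hp
    nlinarith
  have h10 : H ≤ B := by
    refine le_trans ?_ hB
    have h11 : H = (H ^ ε) ^ (1 / ε) := by
      rw [← Real.rpow_mul hH0.le, mul_one_div_cancel hε0.ne', Real.rpow_one]
    rw [h11]
    exact Real.rpow_le_rpow (by positivity) h8 (by positivity)
  exact ⟨by exact_mod_cast hHc.trans h10, by exact_mod_cast hHV.trans h10⟩

end Pool.Agent.K1H94.R
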