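import Mathlib
import Pool.Agent.K1H94.R.Fixed

/-!
One given base, a second base with `S`-part at least `b ^ κ`, exponent `k > 1 / κ` of the third base:
finiteness.
-/

set_option autoImplicit false

namespace Pool.Agent.K1H94.R

open Pool.Agent.K1H94.P (sPart Triples perm3)

theorem sPart_pow (S : Finset ℕ) (b n : ℕ) : sPart S (b ^ n) = sPart S b ^ n := by
  rw [sPart, sPart, ← Finset.prod_pow]
  refine Finset.prod_congr rfl fun p _ => ?_
  rw [Nat.factorization_pow, Finsupp.smul_apply, smul_eq_mul, mul_comm, pow_mul]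

theorem sPart_le {S : Finset ℕ} (hS : ∀ p ∈ S, p.Prime) {b : ℕ} (hb : b ≠ 0) : sPart S b ≤ b := by
  have hT : ∀ p ∈ S ∪ b.primeFactors, p.Prime := by
    intro p hp
    rw [Finset.mem_union] at hp
    rcases hp with h | h
    · exact hS p h
    · exact Nat.prime_of_mem_primeFactors h
  calc sPart S b ≤ sPart (S ∪ b.primeFactors) b := sPart_mono hT Finset.subset_union_left b
    _ = b := sPart_full hb Finset.subset_union_right

/-- the values are bounded, for each exponent `k` -/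
theorem bound_k {κ : ℝ} (hκ0 : 0 < κ) (hκ1 : κ ≤ 1) {k a : ℕ} (hkκ : 1 < κ * k)
    (ha : 0 < a) {S : Finset ℕ} (hS : ∀ p ∈ S, p.Prime) :
    ∃ W : ℕ, ∀ (c m b n : ℕ) (s σ : ℤ), 0 < c → 2 ≤ b → (s = 1 ∨ s = -1) → (σ = 1 ∨ σ = -1) →
      Nat.Coprime c a → (b : ℝ) ^ κ ≤ (sPart S b : ℝ) →
      (c : ℤ) ^ k - s * (a : ℤ) ^ m = σ * (b : ℤ) ^ n → c ^ k ≤ W ∧ a ^ m ≤ W := by
  have hk : 1 ≤ k := by
    rcases Nat.eq_zero_or_pos k with h | h
    · rw [h] at hkκ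
      norm_num at hkκ
    · exact h
  have h1 : ∀ i : ℕ, ∃ B : ℕ, ∀ (c x y : ℕ) (s σ : ℤ), 0 < c → 0 < y → (s = 1 ∨ s = -1) →
      (σ = 1 ∨ σ = -1) → Nat.Coprime c (a ^ x) → (y : ℝ) ^ κ ≤ (sPart S y : ℝ) →
      (c : ℤ) ^ k - s * (a : ℤ) ^ i * ((a ^ x : ℕ) : ℤ) ^ k = σ * y → c ≤ B ∧ a ^ x ≤ B := by
    intro i
    have ha0 : (a : ℤ) ^ i ≠ 0 := pow_ne_zero _ (by exact_mod_cast ha.ne')
    obtain ⟨B₁, hB₁⟩ := fixed_bound hκ0 hκ1 hk hkκ ha hS ha0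
    obtain ⟨B₂, hB₂⟩ := fixed_bound hκ0 hκ1 hk hkκ ha hS (neg_ne_zero.2 ha0)
    refine ⟨max B₁ B₂, fun c x y s σ hc hy hs hσ hcop hpart heq => ?_⟩
    rcases hs with rfl | rfl
    · rw [one_mul] at heq
      obtain ⟨h1, h2⟩ := hB₁ c x y σ hc hy hσ hcop hpart heq
      exact ⟨h1.trans (le_max_left _ _), h2.trans (le_max_left _ _)⟩
    · rw [neg_one_mul] at heq
      obtain ⟨h1, h2⟩ := hB₂ c x y σ hc hy hσ hcop hpart heq
      exact ⟨h1.trans (le_max_right _ _), h2.trans (le_max_right _ _)⟩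
  choose B hB using h1
  set B' := ∑ i ∈ Finset.range k, B i with hB'
  have hBB : ∀ i, i < k → B i ≤ B' := fun i hi =>
    Finset.single_le_sum (f := B) (fun _ _ => Nat.zero_le _) (Finset.mem_range.2 hi)
  refine ⟨a ^ k * B' ^ k, fun c m b n s σ hc hb hs hσ hca hpart heq => ?_⟩
  have hm : k * (m / k) + m % k = m := Nat.div_add_mod m k
  have hml : m % k < k := Nat.mod_lt _ hk
  have ham : a ^ m = a ^ (m % k) * (a ^ (m / k)) ^ k := by
    rw [← pow_mul, ← pow_add]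
    congr 1
    rw [mul_comm (m / k) k]
    omega
  have hpart' : ((b ^ n : ℕ) : ℝ) ^ κ ≤ (sPart S (b ^ n) : ℝ) := by
    rw [sPart_pow]
    push_cast
    rw [← Real.rpow_natCast, ← Real.rpow_mul (Nat.cast_nonneg b), mul_comm, Real.rpow_mul
      (Nat.cast_nonneg b), Real.rpow_natCast]
    exact pow_le_pow_left₀ (by positivity) hpart n
  obtain ⟨h1, h2⟩ := hB (m % k) c (m / k) (b ^ n) s σ hc (pow_pos (by omega) n) hs hσ
    (Nat.Coprime.pow_right _ hca) hpart' (by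
      rw [Nat.cast_pow b n, ← heq]
      have : (a : ℤ) ^ m = (a : ℤ) ^ (m % k) * ((a ^ (m / k) : ℕ) : ℤ) ^ k := by
        exact_mod_cast ham
      rw [this]
      ring)
  have hBm := hBB _ hml
  have hak : 1 ≤ a ^ k := Nat.one_le_pow _ _ ha
  refine ⟨?_, ?_⟩
  · calc c ^ k ≤ B' ^ k := Nat.pow_le_pow_left (h1.trans hBm) k
      _ ≤ a ^ k * B' ^ k := Nat.le_mul_of_pos_left _ hak
  · rw [ham]
    exact Nat.mul_le_mul (Nat.pow_le_pow_right ha hml.le) (Nat.pow_le_pow_left (h2.trans hBm) k)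

/-- **One given base, finiteness.** -/
theorem main (κ : ℝ) (hκ : 0 < κ) (a : ℕ) (ha : 1 ≤ a) (S : Finset ℕ) (hS : ∀ p ∈ S, p.Prime) :
    {v : ℕ × ℕ × ℕ | v.1 + v.2.1 = v.2.2 ∧ ∃ b c m n k : ℕ, 2 ≤ b ∧ 1 ≤ c ∧ 1 ≤ m ∧ 1 ≤ n ∧
      1 < κ * k ∧ Nat.Coprime a b ∧ Nat.Coprime a c ∧ Nat.Coprime b c ∧
      (b : ℝ) ^ κ ≤ (sPart S b : ℝ) ∧
      ({v.1, v.2.1, v.2.2} : Multiset ℕ) = {a ^ m, b ^ n, c ^ k}}.Finite := by
  by_cases hκ1 : κ ≤ 1
  · obtain ⟨Z, K, hZ⟩ := Pool.Agent.K1H94.P.main κ hκ S.card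
    have hlarge := (hZ a (∑ p ∈ S, p) S ha (fun p hp => ⟨hS p hp,
      Finset.single_le_sum (f := fun p => p) (fun _ _ => Nat.zero_le _) hp⟩) le_rfl).1
    have hsmall : ∀ k : ℕ, ∃ W : ℕ, 1 < κ * k → ∀ (c m b n : ℕ) (s σ : ℤ), 0 < c → 2 ≤ b →
        (s = 1 ∨ s = -1) → (σ = 1 ∨ σ = -1) → Nat.Coprime c a → (b : ℝ) ^ κ ≤ (sPart S b : ℝ) →
        (c : ℤ) ^ k - s * (a : ℤ) ^ m = σ * (b : ℤ) ^ n → c ^ k ≤ W ∧ a ^ m ≤ W := by
      intro k
      by_cases hk : 1 < κ * k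
      · obtain ⟨W, hW⟩ := bound_k (κ := κ) hκ hκ1 hk ha hS
        exact ⟨W, fun _ => hW⟩
      · exact ⟨0, fun h => absurd h hk⟩
    choose W hW using hsmall
    set W' := ∑ k ∈ Finset.range Z, W k with hW'
    have hfin : ((Finset.range (2 * W' + 1) ×ˢ Finset.range (2 * W' + 1) ×ˢ
        Finset.range (2 * W' + 1) : Finset (ℕ × ℕ × ℕ)) : Set (ℕ × ℕ × ℕ)).Finite :=
      Finset.finite_toSet _
    refine (hlarge.union hfin).subset ?_
    rintro ⟨x, y, z⟩ ⟨hsum, b, c, m, n, k, hb, hc, hm, hn, hk, hab, hac, hbc, hpart, hmul⟩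
    by_cases hkZ : Z ≤ k
    · left
      exact ⟨hsum, b, c, m, n, k, hb, hc, hm, hn, hkZ, hab, hac, hbc, hpart, hmul⟩
    · right
      rw [not_le] at hkZ
      simp only at hsum hmul
      have hWk : W k ≤ W' :=
        Finset.single_le_sum (f := W) (fun _ _ => Nat.zero_le _) (Finset.mem_range.2 hkZ)
      have key : ∀ s σ : ℤ, (s = 1 ∨ s = -1) → (σ = 1 ∨ σ = -1) →
          (c : ℤ) ^ k - s * (a : ℤ) ^ m = σ * (b : ℤ) ^ n →
          c ^ k ≤ W' ∧ a ^ m ≤ W' := fun s σ hs hσ h => by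
        obtain ⟨h1, h2⟩ := hW k hk c m b n s σ hc hb hs hσ hac.symm hpart h
        exact ⟨h1.trans hWk, h2.trans hWk⟩
      have fin : z ≤ 2 * W' → (x, y, z) ∈ ((Finset.range (2 * W' + 1) ×ˢ
          Finset.range (2 * W' + 1) ×ˢ Finset.range (2 * W' + 1) : Finset (ℕ × ℕ × ℕ)) :
          Set (ℕ × ℕ × ℕ)) := by
        intro h
        simp only [Finset.coe_product, Finset.coe_range, Set.mem_prod, Set.mem_Iio]
        exact ⟨by omega, by omega, by omega⟩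
      rcases perm3 hmul with ⟨h1, h2, h3⟩ | ⟨h1, h2, h3⟩ | ⟨h1, h2, h3⟩ | ⟨h1, h2, h3⟩ |
          ⟨h1, h2, h3⟩ | ⟨h1, h2, h3⟩
      · have h4 : a ^ m + b ^ n = c ^ k := by rw [← h1, ← h2, ← h3]; exact hsum
        have h5 : (a : ℤ) ^ m + (b : ℤ) ^ n = (c : ℤ) ^ k := by exact_mod_cast h4
        obtain ⟨h6, h7⟩ := key 1 1 (Or.inl rfl) (Or.inl rfl) (by linarith)
        exact fin (by omega)
      · have h4 : a ^ m + c ^ k = b ^ n := by rw [← h1, ← h2, ← h3]; exact hsum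
        have h5 : (a : ℤ) ^ m + (c : ℤ) ^ k = (b : ℤ) ^ n := by exact_mod_cast h4
        obtain ⟨h6, h7⟩ := key (-1) 1 (Or.inr rfl) (Or.inl rfl) (by linarith)
        exact fin (by omega)
      · have h4 : b ^ n + a ^ m = c ^ k := by rw [← h1, ← h2, ← h3]; exact hsum
        have h5 : (b : ℤ) ^ n + (a : ℤ) ^ m = (c : ℤ) ^ k := by exact_mod_cast h4
        obtain ⟨h6, h7⟩ := key 1 1 (Or.inl rfl) (Or.inl rfl) (by linarith)
        exact fin (by omega)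
      · have h4 : b ^ n + c ^ k = a ^ m := by rw [← h1, ← h2, ← h3]; exact hsum
        have h5 : (b : ℤ) ^ n + (c : ℤ) ^ k = (a : ℤ) ^ m := by exact_mod_cast h4
        obtain ⟨h6, h7⟩ := key 1 (-1) (Or.inl rfl) (Or.inr rfl) (by linarith)
        exact fin (by omega)
      · have h4 : c ^ k + a ^ m = b ^ n := by rw [← h1, ← h2, ← h3]; exact hsum
        have h5 : (c : ℤ) ^ k + (a : ℤ) ^ m = (b : ℤ) ^ n := by exact_mod_cast h4
        obtain ⟨h6, h7⟩ := key (-1) 1 (Or.inr rfl) (Or.inl rfl) (by linarith)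
        exact fin (by omega)
      · have h4 : c ^ k + b ^ n = a ^ m := by rw [← h1, ← h2, ← h3]; exact hsum
        have h5 : (c : ℤ) ^ k + (b : ℤ) ^ n = (a : ℤ) ^ m := by exact_mod_cast h4
        obtain ⟨h6, h7⟩ := key 1 (-1) (Or.inl rfl) (Or.inr rfl) (by linarith)
        exact fin (by omega)
  · rw [not_le] at hκ1
    refine Set.finite_empty.subset ?_
    rintro v ⟨-, b, c, m, n, k, hb, -, -, -, -, -, -, -, hpart, -⟩
    exfalso
    have hbR : (1 : ℝ) < b := by exact_mod_cast (by omega : 1 < b)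
    have h1 : (b : ℝ) ^ (1 : ℝ) < (b : ℝ) ^ κ := Real.rpow_lt_rpow_of_exponent_lt hbR hκ1
    rw [Real.rpow_one] at h1
    have h2 : (sPart S b : ℝ) ≤ b := by exact_mod_cast sPart_le hS (by omega)
    linarith

end Pool.Agent.K1H94.R
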